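import Pool.Agent.Z894.CP.Stm

/-!
# Project CP, part 6: the residue field of a valuation ring of an algebraically closed field is
algebraically closed
-/

set_option autoImplicit false

namespace Pool.Agent.Y405.CP

open Polynomial

theorem alg_holds : Pool.Agent.Z894.CP.PAlg := by
  intro K _ _ B
  refine IsAlgClosed.of_exists_root _ fun f hf hirr => ?_
  have hlift : f ∈ Polynomial.lifts (IsLocalRing.residue B) := by
    rw [Polynomial.mem_lifts]
    exact Polynomial.map_surjective _ IsLocalRing.residue_surjective f
  obtain ⟨g, hg1, hg2, hg3⟩ := Polynomial.lifts_and_natDegree_eq_and_monic hlift hf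
  have hdeg : (g.map (algebraMap B K)).degree ≠ 0 := by
    rw [hg3.degree_map, Polynomial.degree_eq_natDegree hg3.ne_zero, hg2]
    have := hirr.natDegree_pos
    exact_mod_cast this.ne'
  obtain ⟨a, ha⟩ := IsAlgClosed.exists_root (g.map (algebraMap B K)) hdeg
  have hint : IsIntegral B a := ⟨g, hg3, by
    rw [← Polynomial.eval_map]
    exact ha⟩
  obtain ⟨b, hb⟩ := (IsIntegrallyClosed.isIntegral_iff (R := B) (K := K)).mp hint
  refine ⟨IsLocalRing.residue B b, ?_⟩
  have h1 : g.eval b = 0 := by
    apply (IsFractionRing.injective B K)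
    rw [map_zero, ← Polynomial.eval_map_apply, hb]
    exact ha
  rw [← hg1, Polynomial.eval_map_apply, h1, map_zero]

end Pool.Agent.Y405.CP
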